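import Pool.Agent.helper23.CO.SpecB

/-!
# Project co, row EXB: exponential moment of the perturbation
-/

open Finset Filter Topology

namespace CO

open CU

theorem EXB (hLRO : LRO_stmt) (hUPQ : UPQ_stmt) (hCHA : CHA_stmt) (hLPI : LPI_stmt) (hEXT : EXT_stmt) (hMSP : MSP_stmt) :
    EXB_stmt := by
  have _ := hLPI
  have _ := hMSP
  intro d β κ hd hLC hms hκ
  set M : ℝ := ms d β with hM
  have hκ₁ : 0 < min (κ / 4) (M ^ 2 / 4) := lt_min (by linarith) (by positivity)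
  obtain ⟨κ₁, hκ₁def⟩ : ∃ κ₁, κ₁ = min (κ / 4) (M ^ 2 / 4) := ⟨_, rfl⟩
  rw [← hκ₁def] at hκ₁
  have hk1 : κ₁ ≤ κ / 4 := hκ₁def ▸ min_le_left _ _
  have hk2 : κ₁ ≤ M ^ 2 / 4 := hκ₁def ▸ min_le_right _ _
  obtain ⟨β', hβ'0, hβ', hL⟩ := hLRO d β κ₁ hd hLC hms hκ₁
  have hβ : 0 ≤ β := hβ'0.trans hβ'.le
  have hd0 : (0 : ℝ) < d := by exact_mod_cast (by omega : 0 < d)
  have hμ : 0 < M / 2 := by linarith
  have hμ4 : 0 < (M / 2) ^ 4 := by positivity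
  obtain ⟨θ, hθdef⟩ : ∃ θ, θ = (β - β') * (M / 2) ^ 4 / d := ⟨_, rfl⟩
  have hθ : 0 < θ := by
    rw [hθdef]
    have : 0 < β - β' := by linarith
    positivity
  have hθβ : (d : ℝ) / (M / 2) ^ 4 * θ = β - β' := by
    rw [hθdef]
    field_simp
  have hβ'eq : β - (d : ℝ) / (M / 2) ^ 4 * θ = β' := by rw [hθβ]; ring
  refine ⟨θ, hθ, ?_⟩
  filter_upwards [hL, hUPQ d β κ₁ θ (by omega) hβ hκ₁ hθ.le] with n hn hU k a ha0 ha1 hk hksum
  have hU1 := hU k a ha0 ha1 hk hksum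
  have hcard : (0 : ℝ) < (Fintype.card (Site d (n + 3)) : ℝ) := by exact_mod_cast Fintype.card_pos
  have hch := hCHA d (n + 3) (by omega) (by omega) β θ (M / 2) (M ^ 2 - κ₁) a ((a + 1) * M ^ 2 + κ₁) k hμ hθ.le
    (by rw [hθβ]; linarith) ha0 (fun z => (hk z).1)
    (by
      intro x
      rw [hβ'eq]
      refine le_trans ?_ (hn x)
      nlinarith)
    (by
      rw [hβ'eq, le_div_iff₀ hcard]
      calc (M ^ 2 - κ₁) * (Fintype.card (Site d (n + 3)) : ℝ) = ∑ _x : Site d (n + 3), (M ^ 2 - κ₁) := by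
            rw [Finset.sum_const, Finset.card_univ, nsmul_eq_mul, mul_comm]
        _ ≤ _ := Finset.sum_le_sum fun x _ => hn x)
    hU1
  rw [(hEXT d (n + 3) β).1]
  refine hch.trans ?_
  apply Real.exp_le_exp.mpr
  refine mul_le_mul_of_nonneg_left ?_ hθ.le
  have hpow : (((n + 3 : ℕ) : ℝ)) ^ (d - 1) = ((n : ℝ) + 3) ^ (d - 1) := by push_cast; rfl
  rw [hpow]
  refine mul_le_mul_of_nonneg_left ?_ (by positivity)
  linarith

end CO
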