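import Pool.Agent.helper23.CO.SpecB
import Pool.Agent.helper23.CS.Spec

set_option autoImplicit false
set_option linter.unusedVariables false

open Finset Filter Topology

namespace CO

open CU

private theorem MSP_box {d L L' : ℕ} (h : L ≤ L') :
    zBox L (0 : ZSite d) ⊆ zBox L' (0 : ZSite d) := by
  intro x hx
  unfold zBox at hx ⊢
  rw [Fintype.mem_piFinset] at hx ⊢
  intro k
  have h1 := Finset.mem_Icc.1 (hx k)
  have h2 : (L : ℤ) ≤ (L' : ℤ) := by exact_mod_cast h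
  exact Finset.mem_Icc.2 ⟨by linarith [h1.1], by linarith [h1.2]⟩

theorem MSP (hVC : CU.VC_stmt) (hVD : CU.VD_stmt) (hVF : CU.VF_stmt) (hGC : CS.GC_stmt)
    (hMONO : CS.MONO_stmt) (hRCO : CS.RCO_stmt) : MSP_stmt := by
  intro d
  have e1 : ∀ (b : ℝ) (L : ℕ), CS.ML d b L = CS.cor (CS.zG (zBox L (0 : ZSite d))) b univ
      (CS.cl (zBox L (0 : ZSite d)) 0) none := fun b L => hGC d b (zBox L 0) 0
  have e2 : ∀ (b : ℝ) (L : ℕ), 0 ≤ b → 0 ≤ CS.ML d b L ∧ CS.ML d b L ≤ 1 := by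
    intro b L hb
    rw [e1]
    exact (hRCO _ _ (CS.zG (zBox L (0 : ZSite d))) b univ hb).2.2.2 _ _
  have e3 : ∀ b : ℝ, 0 ≤ b → BddBelow (Set.range fun L : ℕ => CS.ML d b L) := by
    intro b hb
    refine ⟨0, ?_⟩
    rintro _ ⟨L, rfl⟩
    exact (e2 b L hb).1
  refine ⟨fun b L hb => ⟨le_ciInf fun L => (e2 b L hb).1, ciInf_le (e3 b hb) L, (e2 b L hb).2⟩,
    ?_, ?_, ?_⟩
  · intro b b' hb hbb
    refine ciInf_mono (e3 b hb) fun L => ?_
    rw [e1, e1]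
    exact hMONO _ _ (CS.zG (zBox L (0 : ZSite d))) univ (CS.cl (zBox L (0 : ZSite d)) 0) none
      (Set.mem_Ici.2 hb) (Set.mem_Ici.2 (hb.trans hbb)) hbb
  · intro b κ hb hκ
    obtain ⟨L0, hL0⟩ := exists_lt_of_ciInf_lt (show (⨅ L : ℕ, CS.ML d b L) < ms d b + κ by
      show ms d b < ms d b + κ
      linarith)
    refine ⟨L0, fun L hL => ?_⟩
    refine le_trans ?_ hL0.le
    exact hVC d b hb (zBox L0 0) (zBox L 0) (MSP_box hL) 0
  · rintro b hb ⟨m, hm, h⟩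
    refine lt_of_lt_of_le hm (le_ciInf fun L => ?_)
    have h1 := h L (2 * L) le_rfl
    rw [hVF d b L (2 * L) le_rfl] at h1
    exact h1

end CO
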