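import Pool.Agent.helper23.CO.SpecC

set_option autoImplicit false

open Finset Filter Topology

namespace CO

open CU

private theorem NEA_asym (C δ η : ℝ) (k d : ℕ) (hd : 2 ≤ d) (hδ : 0 < δ) (hη : 0 < η) :
    ∀ᶠ n : ℕ in atTop, C * ((n : ℝ) + 3) ^ k * Real.exp (-δ * ((n : ℝ) + 3) ^ (d - 1)) ≤ η := by
  have h1 : Tendsto (fun x : ℝ => x ^ k * Real.exp (-x)) atTop (𝓝 0) :=
    Real.tendsto_pow_mul_exp_neg_atTop_nhds_zero k
  have h2 : Tendsto (fun n : ℕ => δ * ((n : ℝ) + 3)) atTop atTop :=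
    Tendsto.const_mul_atTop hδ (tendsto_atTop_add_const_right _ _ tendsto_natCast_atTop_atTop)
  have h3 : Tendsto (fun n : ℕ => (|C| / δ ^ k) *
      ((δ * ((n : ℝ) + 3)) ^ k * Real.exp (-(δ * ((n : ℝ) + 3))))) atTop (𝓝 ((|C| / δ ^ k) * 0)) :=
    (h1.comp h2).const_mul _
  rw [mul_zero] at h3
  filter_upwards [h3.eventually_le_const hη] with n hn
  have hx : (1 : ℝ) ≤ (n : ℝ) + 3 := by linarith [Nat.cast_nonneg (α := ℝ) n]
  have hx0 : (0 : ℝ) < (n : ℝ) + 3 := by linarith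
  have h4 : (n : ℝ) + 3 ≤ ((n : ℝ) + 3) ^ (d - 1) := by
    calc (n : ℝ) + 3 = ((n : ℝ) + 3) ^ 1 := (pow_one _).symm
      _ ≤ ((n : ℝ) + 3) ^ (d - 1) := pow_le_pow_right₀ hx (by omega)
  have h5 : Real.exp (-δ * ((n : ℝ) + 3) ^ (d - 1)) ≤ Real.exp (-(δ * ((n : ℝ) + 3))) := by
    apply Real.exp_le_exp.2
    nlinarith
  have h6 : (|C| / δ ^ k) * ((δ * ((n : ℝ) + 3)) ^ k * Real.exp (-(δ * ((n : ℝ) + 3)))) =
      |C| * ((n : ℝ) + 3) ^ k * Real.exp (-(δ * ((n : ℝ) + 3))) := by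
    rw [mul_pow]
    field_simp
  rw [h6] at hn
  have h7 : C * ((n : ℝ) + 3) ^ k ≤ |C| * ((n : ℝ) + 3) ^ k :=
    mul_le_mul_of_nonneg_right (le_abs_self C) (by positivity)
  calc C * ((n : ℝ) + 3) ^ k * Real.exp (-δ * ((n : ℝ) + 3) ^ (d - 1))
      ≤ |C| * ((n : ℝ) + 3) ^ k * Real.exp (-δ * ((n : ℝ) + 3) ^ (d - 1)) :=
        mul_le_mul_of_nonneg_right h7 (Real.exp_pos _).le
    _ ≤ |C| * ((n : ℝ) + 3) ^ k * Real.exp (-(δ * ((n : ℝ) + 3))) :=
        mul_le_mul_of_nonneg_left h5 (by positivity)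
    _ ≤ η := hn

private theorem NEA_card (d n : ℕ) : (Fintype.card (Site d (n + 3)) : ℝ) = ((n : ℝ) + 3) ^ d := by
  have h : Fintype.card (Site d (n + 3)) = (n + 3) ^ d := by
    rw [Fintype.card_fun, ZMod.card, Fintype.card_fin]
  rw [h]
  push_cast
  rfl

private theorem NEA_flip {d n : ℕ} [NeZero n] (σ : Conf d n) : Mg (flipc σ) = - Mg σ := by
  unfold Mg flipc
  rw [← Finset.sum_neg_distrib]
  refine Finset.sum_congr rfl fun x _ => ?_
  cases σ x <;> simp [sg]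

private theorem NEA_half (hLIN : CU.LIN_stmt) (hFLP : CU.FLP_stmt) (d n : ℕ) [NeZero n]
    (β u p0 : ℝ) (hu : 2 ≤ u * (Fintype.card (Site d n) : ℝ)) (hp : p0 ≤ 1 / 5)
    (h : PrE β {σ : Conf d n | |Mg σ / (Fintype.card (Site d n) : ℝ)| ≤ u} ≤ p0) :
    2 / 5 ≤ PrE β {σ : Conf d n | 2 ≤ Mg σ} := by
  classical
  have hN : (0 : ℝ) < (Fintype.card (Site d n) : ℝ) := by exact_mod_cast Fintype.card_pos
  set A : Set (Conf d n) := {σ : Conf d n | 2 ≤ Mg σ} with hA
  set B : Set (Conf d n) := {σ : Conf d n | |Mg σ / (Fintype.card (Site d n) : ℝ)| ≤ u} with hB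
  have e1 : Ex β (fun σ : Conf d n => A.indicator (fun _ => (1 : ℝ)) (flipc σ)) = PrE β A :=
    (hFLP d n β (A.indicator fun _ => 1) 0).2.1
  have e2 := (hLIN d n β (A.indicator fun _ => (1 : ℝ))
    (fun σ : Conf d n => A.indicator (fun _ => (1 : ℝ)) (flipc σ)) 1 1 0).2.2.1
  have e3 := (hLIN d n β (fun σ : Conf d n => 1 * (A.indicator (fun _ => (1 : ℝ))) σ +
    1 * A.indicator (fun _ => (1 : ℝ)) (flipc σ)) (B.indicator fun _ => (1 : ℝ)) 1 1 0).2.2.1
  have e4 := (hLIN d n β (fun _ : Conf d n => (1 : ℝ))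
    (fun σ : Conf d n => 1 * (1 * (A.indicator (fun _ => (1 : ℝ))) σ +
    1 * A.indicator (fun _ => (1 : ℝ)) (flipc σ)) + 1 * (B.indicator fun _ => (1 : ℝ)) σ)
    1 1 0).2.2.2.1 (by
      intro σ
      have n1 : 0 ≤ (A.indicator (fun _ => (1 : ℝ))) σ :=
        Set.indicator_nonneg (fun _ _ => zero_le_one) _
      have n2 : 0 ≤ (A.indicator (fun _ => (1 : ℝ))) (flipc σ) :=
        Set.indicator_nonneg (fun _ _ => zero_le_one) _
      have n3 : 0 ≤ (B.indicator (fun _ => (1 : ℝ))) σ :=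
        Set.indicator_nonneg (fun _ _ => zero_le_one) _
      by_cases h1 : 2 ≤ Mg σ
      · have : (A.indicator (fun _ => (1 : ℝ))) σ = 1 :=
          Set.indicator_of_mem (show σ ∈ A from h1) _
        rw [this]
        linarith
      · by_cases h2 : Mg σ ≤ -2
        · have h3 : flipc σ ∈ A := by
            show 2 ≤ Mg (flipc σ)
            rw [NEA_flip]
            linarith
          have : (A.indicator (fun _ => (1 : ℝ))) (flipc σ) = 1 := Set.indicator_of_mem h3 _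
          rw [this]
          linarith
        · have h3 : σ ∈ B := by
            show |Mg σ / (Fintype.card (Site d n) : ℝ)| ≤ u
            rw [abs_div, abs_of_pos hN, div_le_iff₀ hN]
            refine le_trans (abs_le.2 ⟨by linarith, by linarith⟩) hu
          have : (B.indicator (fun _ => (1 : ℝ))) σ = 1 := Set.indicator_of_mem h3 _
          rw [this]
          linarith)
  have e5 := (hLIN d n β (fun _ : Conf d n => (1 : ℝ)) (fun _ : Conf d n => (1 : ℝ)) 1 1 0).2.2.2.2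
  have e6 : PrE β A = Ex β (A.indicator fun _ => (1 : ℝ)) := rfl
  have e7 : PrE β B = Ex β (B.indicator fun _ => (1 : ℝ)) := rfl
  rw [e3, e2, e5, e1, ← e6, ← e7] at e4
  linarith

theorem NEA (hNEB : NEB_stmt) (hLDM : LDM_stmt) (hLDH : LDH_stmt) (hUPB : UPB_stmt)
    (hEXT : EXT_stmt) (hERK : ERK_stmt) (hMSP : MSP_stmt) (hWLA : WLA_stmt) (hWLB : WLB_stmt)
    (hLIN : CU.LIN_stmt) (hFLP : CU.FLP_stmt) : NEA_stmt := by
  intro d β ε hd hβ hLC hms hε
  have hd0 : 0 < d := by omega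
  have hm1 : ms d β ≤ 1 := by
    obtain ⟨h1, -⟩ := hMSP d
    obtain ⟨-, h3, h4⟩ := h1 β 0 hβ
    exact h3.trans h4
  obtain ⟨K, hK1, hKε⟩ : ∃ K : ℕ, 1 ≤ K ∧ 64 * β * ((d : ℝ) + 2) ≤ ε * K := by
    refine ⟨⌈64 * β * ((d : ℝ) + 2) / ε⌉₊ + 1, by omega, ?_⟩
    have h1 := Nat.le_ceil (64 * β * ((d : ℝ) + 2) / ε)
    rw [div_le_iff₀ hε] at h1
    push_cast
    nlinarith
  have hK0 : (0 : ℝ) < (K : ℝ) := by exact_mod_cast hK1
  obtain ⟨κ, hκ, hκm, hκε⟩ : ∃ κ : ℝ, 0 < κ ∧ 4 * κ < ms d β ∧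
      24 * (1 + Real.exp (4 * d * β)) * κ * K ≤ ε / 8 := by
    have h0 : 0 < 8 * (24 * (1 + Real.exp (4 * d * β)) * K) := by positivity
    refine ⟨min (ms d β / 8) (ε / (8 * (24 * (1 + Real.exp (4 * d * β)) * K))), ?_, ?_, ?_⟩
    · exact lt_min (by linarith) (by positivity)
    · have := min_le_left (ms d β / 8) (ε / (8 * (24 * (1 + Real.exp (4 * d * β)) * K)))
      linarith
    · have h1 := min_le_right (ms d β / 8) (ε / (8 * (24 * (1 + Real.exp (4 * d * β)) * K)))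
      rw [le_div_iff₀ h0] at h1
      linarith
  obtain ⟨c1, hc1, h1⟩ := hLDM d β κ hd hLC hms hκ
  obtain ⟨c2, hc2, h2⟩ := hLDH d hd0 β κ K hd hLC hms hκ
  obtain ⟨L, h3⟩ := hUPB d β κ 0 hβ hκ le_rfl
  have hc0 : 0 < min c1 c2 := lt_min hc1 hc2
  refine ⟨min (ε / 8) (min c1 c2 / 2), lt_min (by linarith) (by linarith), ?_⟩
  have a1 := NEA_asym (82 * Real.exp (2 + 2 * d * β)) (ε / 8) (1 / 2) (2 * d + 1) d hd
    (by linarith) (by norm_num)
  have a2 := NEA_asym (2 * (3 + 6 / κ)) (min c1 c2 / 2) (1 / 2) d d hd (by linarith) (by norm_num)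
  have a3 := NEA_asym 1 (min c1 c2) (1 / 5) 0 d hd hc0 (by norm_num)
  have a4 := NEA_asym (3 + 6 / κ) (min c1 c2) (1 / 10) 0 d hd hc0 (by norm_num)
  filter_upwards [h1, h2, h3, a1, a2, a3, a4,
    eventually_ge_atTop (16 * K + K * K + 8 * K * L + ⌈2 / (ms d β - κ)⌉₊)] with
    n g1 g2 g3 b1 b2 b3 b4 hn
  intro s hs
  have hx1 : (1 : ℝ) ≤ (n : ℝ) + 3 := by linarith [Nat.cast_nonneg (α := ℝ) n]
  have hxc : ((n + 3 : ℕ) : ℝ) = (n : ℝ) + 3 := by push_cast; rfl
  have hcard := NEA_card d n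
  have hKn : 16 * K ≤ n + 3 := by
    have : 0 ≤ K * K + 8 * K * L + ⌈2 / (ms d β - κ)⌉₊ := Nat.zero_le _
    omega
  have hKK : K * K ≤ n + 3 := by
    have : 0 ≤ 16 * K + 8 * K * L + ⌈2 / (ms d β - κ)⌉₊ := Nat.zero_le _
    omega
  have hKL : 8 * K * L ≤ n + 3 := by
    have : 0 ≤ 16 * K + K * K + ⌈2 / (ms d β - κ)⌉₊ := Nat.zero_le _
    omega
  have hcn : ⌈2 / (ms d β - κ)⌉₊ ≤ n := by
    have : 0 ≤ 16 * K + K * K + 8 * K * L := Nat.zero_le _
    omega
  have hmκ : 0 < ms d β - κ := by linarith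
  have hu : 2 ≤ (ms d β - κ) * (Fintype.card (Site d (n + 3)) : ℝ) := by
    rw [hcard]
    have q1 : 2 / (ms d β - κ) ≤ (n : ℝ) := le_trans (Nat.le_ceil _) (by exact_mod_cast hcn)
    rw [div_le_iff₀ hmκ] at q1
    have q2 : (n : ℝ) + 3 ≤ ((n : ℝ) + 3) ^ d := by
      calc (n : ℝ) + 3 = ((n : ℝ) + 3) ^ 1 := (pow_one _).symm
        _ ≤ ((n : ℝ) + 3) ^ d := pow_le_pow_right₀ hx1 (by omega)
    nlinarith
  obtain ⟨-, -, -, -, -, -, w1, w2, w3, w4⟩ := hWLA (n + 3) K hK1 hKn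
  have hy0 : (0 : ℝ) < ((n : ℝ) + 3) ^ (d - 1) := by positivity
  have hp1 : Real.exp (-c1 * ((n : ℝ) + 3) ^ (d - 1)) ≤
      Real.exp (-(min c1 c2) * ((n : ℝ) + 3) ^ (d - 1)) := by
    apply Real.exp_le_exp.2
    have := min_le_left c1 c2
    nlinarith
  have hp2 : Real.exp (-c2 * ((n : ℝ) + 3) ^ (d - 1)) ≤
      Real.exp (-(min c1 c2) * ((n : ℝ) + 3) ^ (d - 1)) := by
    apply Real.exp_le_exp.2
    have := min_le_right c1 c2
    nlinarith
  have P1 := g1.trans hp1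
  have P2 := (g2 (univ \ isl (n + 3) K) w1 w2).trans hp2
  have P3 := (g2 (i2l (n + 3) K) w3 w4).trans hp2
  rw [pow_zero, mul_one] at b3 b4
  rw [one_mul] at b3
  have P4 := NEA_half hLIN hFLP d (n + 3) β (ms d β - κ) _ hu b3 P1
  have P6 : ∀ x ∈ slab hd0 (i2l (n + 3) K),
      ER β (slab hd0 (isl (n + 3) K)) (fun σ => sg (σ x)) plus ≤ ms d β + κ := by
    intro x hx
    rw [← (hERK d (n + 3) β (fun σ : Conf d (n + 3) => sg (σ x))).2, (hEXT d (n + 3) β).2.1]
    refine (g3 (fun _ => 0) 0 le_rfl (by simp) (fun _ => le_rfl) (by simp)).1 _ x ?_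
    intro y hy hNear
    have hx' : x ⟨0, hd0⟩ ∈ i2l (n + 3) K := (Finset.mem_filter.1 hx).2
    have hy' : y ∉ slab hd0 (isl (n + 3) K) := (Finset.mem_sdiff.1 hy).2
    apply hy'
    refine Finset.mem_filter.2 ⟨Finset.mem_univ _, ?_⟩
    refine (hWLB (n + 3) K L hK1 hKn (x ⟨0, hd0⟩) (y ⟨0, hd0⟩) (hNear ⟨0, hd0⟩)).1 ?_ hx'
    rw [Nat.div_div_eq_div_mul, Nat.div_div_eq_div_mul]
    rw [Nat.le_div_iff_mul_le (by positivity)]
    calc L * (K * (4 * 2)) = 8 * K * L := by ring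
      _ ≤ n + 3 := hKL
  obtain ⟨a, ha, hE⟩ := hNEB d (n + 3) K s hd0 β (ms d β) κ _ hd hβ hK1 hKn hκ (by linarith) hm1
    P1 P2 P3 P4 b4 P6
  refine ⟨a, ha, hE.trans ?_⟩
  -- the numerical bound
  rw [hxc, hcard]
  set x : ℝ := (n : ℝ) + 3 with hxdef
  have hx0 : 0 < x := by linarith
  set y : ℝ := x ^ (d - 1) with hydef
  have hcW : cW d (n + 3) β K ≤ 2 * x ^ d * Real.exp (ε / 8 * y + 4 * d * β) := by
    unfold cW
    rw [hcard, hxc]
    apply mul_le_mul_of_nonneg_left _ (by positivity)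
    apply Real.exp_le_exp.2
    have q1 : (((n + 3) / K + K : ℕ) : ℝ) ≤ 2 * x / K := by
      push_cast
      have q2 : (((n + 3) / K : ℕ) : ℝ) ≤ x / K := by
        refine le_trans Nat.cast_div_le ?_
        rw [hxc]
      have q3 : (K : ℝ) ≤ x / K := by
        rw [le_div_iff₀ hK0]
        have : ((K * K : ℕ) : ℝ) ≤ ((n + 3 : ℕ) : ℝ) := by exact_mod_cast hKK
        rw [hxc] at this
        push_cast at this
        exact this
      have q4 : 2 * x / K = x / K + x / K := by ring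
      rw [q4]
      exact add_le_add q2 q3
    have q5 : y = x * x ^ (d - 2) := by
      rw [hydef, ← pow_succ']
      congr 1
      omega
    have q6 : (0 : ℝ) < x ^ (d - 2) := by positivity
    have q7 : 4 * β * (((d : ℝ) + 2) * (((n + 3) / K + K : ℕ) : ℝ) * x ^ (d - 2)) ≤
        4 * β * (((d : ℝ) + 2) * (2 * x / K) * x ^ (d - 2)) := by
      apply mul_le_mul_of_nonneg_left _ (by positivity)
      apply mul_le_mul_of_nonneg_right _ q6.le
      exact mul_le_mul_of_nonneg_left q1 (by positivity)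
    have q8 : 4 * β * (((d : ℝ) + 2) * (2 * x / K) * x ^ (d - 2)) =
        (64 * β * ((d : ℝ) + 2)) / K / 8 * y := by
      rw [q5]
      ring
    have q9 : (64 * β * ((d : ℝ) + 2)) / K ≤ ε := by
      rw [div_le_iff₀ hK0]
      exact hKε
    have q10 : (64 * β * ((d : ℝ) + 2)) / K / 8 * y ≤ ε / 8 * y := by
      apply mul_le_mul_of_nonneg_right _ hy0.le
      linarith
    linarith
  have hsq : √(cW d (n + 3) β K * ((x ^ d) ^ 3 / (2 * (s : ℝ) + 1))) ≤
      2 * (x ^ d) ^ 2 * Real.exp (ε / 16 * y + 2 * d * β - ε / 2 * y) := by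
    rw [Real.sqrt_le_left (by positivity)]
    have r1 : (x ^ d) ^ 3 / (2 * (s : ℝ) + 1) ≤ (x ^ d) ^ 3 * Real.exp (-(ε * y)) := by
      rw [div_eq_mul_inv]
      apply mul_le_mul_of_nonneg_left _ (by positivity)
      rw [Real.exp_neg]
      apply inv_anti₀ (Real.exp_pos _)
      have : (0 : ℝ) ≤ (s : ℝ) := Nat.cast_nonneg s
      linarith
    have r2 : 0 ≤ (x ^ d) ^ 3 / (2 * (s : ℝ) + 1) := by positivity
    calc cW d (n + 3) β K * ((x ^ d) ^ 3 / (2 * (s : ℝ) + 1))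
        ≤ (2 * x ^ d * Real.exp (ε / 8 * y + 4 * d * β)) * ((x ^ d) ^ 3 * Real.exp (-(ε * y))) :=
          mul_le_mul hcW r1 r2 (by positivity)
      _ = 2 * (x ^ d) ^ 4 * (Real.exp (ε / 8 * y + 4 * d * β) * Real.exp (-(ε * y))) := by ring
      _ ≤ 4 * (x ^ d) ^ 4 * (Real.exp (ε / 8 * y + 4 * d * β) * Real.exp (-(ε * y))) := by
          apply mul_le_mul_of_nonneg_right _ (by positivity)
          have : 0 < (x ^ d) ^ 4 := by positivity
          linarith
      _ = (2 * (x ^ d) ^ 2 * Real.exp (ε / 16 * y + 2 * d * β - ε / 2 * y)) ^ 2 := by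
          have r3 : Real.exp (ε / 8 * y + 4 * d * β) * Real.exp (-(ε * y)) =
              Real.exp (ε / 16 * y + 2 * d * β - ε / 2 * y) ^ 2 := by
            rw [← Real.exp_add, ← Real.exp_nat_mul]
            congr 1
            push_cast
            ring
          rw [r3]
          ring
  have hT1 : 41 * Real.exp (24 * (1 + Real.exp (4 * d * β)) * κ * K * x ^ (d - 1) + 2) * x *
      √(cW d (n + 3) β K * ((x ^ d) ^ 3 / (2 * (s : ℝ) + 1))) ≤
      1 / 2 * Real.exp (-(min (ε / 8) (min c1 c2 / 2)) * y) := by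
    have t1 : Real.exp (24 * (1 + Real.exp (4 * d * β)) * κ * K * x ^ (d - 1) + 2) ≤
        Real.exp (ε / 8 * y + 2) := by
      apply Real.exp_le_exp.2
      have := mul_le_mul_of_nonneg_right hκε hy0.le
      linarith
    have t2 : 41 * Real.exp (24 * (1 + Real.exp (4 * d * β)) * κ * K * x ^ (d - 1) + 2) * x ≤
        41 * Real.exp (ε / 8 * y + 2) * x := by
      apply mul_le_mul_of_nonneg_right _ hx0.le
      linarith
    calc _ ≤ (41 * Real.exp (ε / 8 * y + 2) * x) *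
          (2 * (x ^ d) ^ 2 * Real.exp (ε / 16 * y + 2 * d * β - ε / 2 * y)) :=
          mul_le_mul t2 hsq (Real.sqrt_nonneg _) (by positivity)
      _ = (82 * Real.exp (2 + 2 * d * β) * x ^ (2 * d + 1) * Real.exp (-(ε / 8) * y)) *
          Real.exp (-(3 * ε / 16) * y) := by
          have t3 : Real.exp (ε / 8 * y + 2) * Real.exp (ε / 16 * y + 2 * d * β - ε / 2 * y) =
              Real.exp (2 + 2 * d * β) * Real.exp (-(ε / 8) * y) *
                Real.exp (-(3 * ε / 16) * y) := by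
            rw [← Real.exp_add, ← Real.exp_add, ← Real.exp_add]
            congr 1
            ring
          have t4 : x ^ (2 * d + 1) = x * (x ^ d) ^ 2 := by ring
          calc _ = 82 * x * (x ^ d) ^ 2 * (Real.exp (ε / 8 * y + 2) *
                Real.exp (ε / 16 * y + 2 * d * β - ε / 2 * y)) := by ring
            _ = _ := by
                rw [t3, t4]
                ring
      _ ≤ 1 / 2 * Real.exp (-(min (ε / 8) (min c1 c2 / 2)) * y) := by
          apply mul_le_mul _ _ (Real.exp_pos _).le (by norm_num)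
          · exact b1
          · apply Real.exp_le_exp.2
            have := min_le_left (ε / 8) (min c1 c2 / 2)
            nlinarith
  have hT2 : 2 * x ^ d * ((3 + 6 / κ) * Real.exp (-(min c1 c2) * x ^ (d - 1))) ≤
      1 / 2 * Real.exp (-(min (ε / 8) (min c1 c2 / 2)) * y) := by
    calc 2 * x ^ d * ((3 + 6 / κ) * Real.exp (-(min c1 c2) * x ^ (d - 1)))
        = (2 * (3 + 6 / κ) * x ^ d * Real.exp (-(min c1 c2 / 2) * y)) *
          Real.exp (-(min c1 c2 / 2) * y) := by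
          have t3 : Real.exp (-(min c1 c2) * x ^ (d - 1)) =
              Real.exp (-(min c1 c2 / 2) * y) * Real.exp (-(min c1 c2 / 2) * y) := by
            rw [← Real.exp_add]
            congr 1
            rw [← hydef]
            ring
          rw [t3]
          ring
      _ ≤ 1 / 2 * Real.exp (-(min (ε / 8) (min c1 c2 / 2)) * y) := by
          apply mul_le_mul _ _ (Real.exp_pos _).le (by norm_num)
          · exact b2
          · apply Real.exp_le_exp.2
            have := min_le_right (ε / 8) (min c1 c2 / 2)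
            nlinarith
  linarith

end CO
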