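import Pool.Agent.helper23.CO.SpecC

/-!
# Project co, row RTO: almost independence of two walls, with a field
-/

open Finset Filter Topology

namespace CO

open CU

/-- comparison of the probabilities for two energies with difference at most `c` -/
private theorem RTO_cmp {V : Type} [Fintype V] [DecidableEq V] (K : V → V → ℝ) (g g' : V → ℝ) (c : ℝ)
    (hc : ∀ σ : V → Bool, |CWM.HH K g σ - CWM.HH K g' σ| ≤ c) (A : Finset V) :
    pr K g A ≤ Real.exp (2 * c) * pr K g' A := by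
  unfold pr
  have h1 : (∑ σ ∈ pl A, Real.exp (CWM.HH K g σ)) ≤ Real.exp c * ∑ σ ∈ pl A, Real.exp (CWM.HH K g' σ) := by
    rw [Finset.mul_sum]
    refine Finset.sum_le_sum fun σ _ => ?_
    rw [← Real.exp_add]
    apply Real.exp_le_exp.mpr
    have := (abs_le.mp (hc σ)).2
    linarith
  have h2 : Real.exp (-c) * (∑ σ : V → Bool, Real.exp (CWM.HH K g' σ)) ≤ ∑ σ : V → Bool, Real.exp (CWM.HH K g σ) := by
    rw [Finset.mul_sum]
    refine Finset.sum_le_sum fun σ _ => ?_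
    rw [← Real.exp_add]
    apply Real.exp_le_exp.mpr
    have := (abs_le.mp (hc σ)).1
    linarith
  have hZ' : 0 < ∑ σ : V → Bool, Real.exp (CWM.HH K g' σ) := Finset.sum_pos (fun σ _ => Real.exp_pos _) univ_nonempty
  have hZ : 0 < ∑ σ : V → Bool, Real.exp (CWM.HH K g σ) := Finset.sum_pos (fun σ _ => Real.exp_pos _) univ_nonempty
  have hA' : 0 ≤ ∑ σ ∈ pl A, Real.exp (CWM.HH K g' σ) := Finset.sum_nonneg fun σ _ => (Real.exp_pos _).le
  have h3 : 0 < Real.exp (-c) * (∑ σ : V → Bool, Real.exp (CWM.HH K g' σ)) := mul_pos (Real.exp_pos _) hZ'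
  calc (∑ σ ∈ pl A, Real.exp (CWM.HH K g σ)) / ∑ σ : V → Bool, Real.exp (CWM.HH K g σ)
      ≤ (Real.exp c * ∑ σ ∈ pl A, Real.exp (CWM.HH K g' σ)) / (Real.exp (-c) * ∑ σ : V → Bool, Real.exp (CWM.HH K g' σ)) :=
        div_le_div₀ (mul_nonneg (Real.exp_pos _).le hA') h1 h3 h2
    _ = Real.exp (2 * c) * ((∑ σ ∈ pl A, Real.exp (CWM.HH K g' σ)) / ∑ σ : V → Bool, Real.exp (CWM.HH K g' σ)) := by
        have hne : (∑ σ : V → Bool, Real.exp (CWM.HH K g' σ)) ≠ 0 := hZ'.ne'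
        have hne2 : Real.exp c ≠ 0 := (Real.exp_pos c).ne'
        rw [Real.exp_neg, two_mul, Real.exp_add]
        field_simp

private theorem RTO_Mg {d n : ℕ} [NeZero n] (σ : Conf d n) : |Mg σ| ≤ (Fintype.card (Site d n) : ℝ) := by
  unfold Mg
  refine (Finset.abs_sum_le_sum_abs _ _).trans ?_
  have h : ∀ x : Site d n, |sg (σ x)| ≤ 1 := by
    intro x
    cases σ x <;> simp [sg]
  refine (Finset.sum_le_sum fun x _ => h x).trans ?_
  rw [Finset.sum_const, Finset.card_univ, nsmul_eq_mul, mul_one]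

theorem RTO (hPRO : PRO_stmt) (hEXT : EXT_stmt) (hTRI : TRI_stmt) (hHHT : HHT_stmt) : RTO_stmt := by
  intro d n _ β h W W' hβ hh hWW'
  have hK : ∀ x y : Site d n, 0 ≤ KT β (fun _ => 0) x y := by
    intro x y
    unfold KT
    refine add_nonneg (mul_nonneg hβ (Finset.sum_nonneg fun i _ => ?_)) le_rfl
    split_ifs <;> norm_num
  have hdiff : ∀ σ : Conf d n, |CWM.HH (KT β fun _ => 0) (fun _ => h) σ - CWM.HH (KT β fun _ => 0) (fun _ => 0) σ| ≤
      h * (Fintype.card (Site d n) : ℝ) := by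
    intro σ
    rw [(hHHT d n β h (fun _ => 0) σ).1, (hHHT d n β 0 (fun _ => 0) σ).1]
    have e : β * HN σ + (∑ x : Site d n, ∑ y : Site d n, (0 : ℝ) * (sg (σ x) * sg (σ y))) + h * Mg σ -
        (β * HN σ + (∑ x : Site d n, ∑ y : Site d n, (0 : ℝ) * (sg (σ x) * sg (σ y))) + 0 * Mg σ) = h * Mg σ := by ring
    rw [e, abs_mul, abs_of_nonneg hh]
    exact mul_le_mul_of_nonneg_left (RTO_Mg σ) hh
  have hdiff' : ∀ σ : Conf d n, |CWM.HH (KT β fun _ => 0) (fun _ => 0) σ - CWM.HH (KT β fun _ => 0) (fun _ => h) σ| ≤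
      h * (Fintype.card (Site d n) : ℝ) := by
    intro σ
    rw [abs_sub_comm]
    exact hdiff σ
  have hp := hPRO (Site d n) (KT β fun _ => 0) (fun _ => h) hK (fun _ => hh) W W' hWW'
  have hm : ∀ x : Site d n, ex (KT β fun _ => 0) (fun _ => h) (fun σ => sg (σ x)) = mT d n β h := fun x =>
    (hTRI d n β h (fun _ => 0)).2.1 x
  rw [Finset.sum_congr rfl fun x _ => by rw [hm x]] at hp
  obtain ⟨X, hX⟩ : ∃ X, X = ∑ x ∈ W, (exA (KT β fun _ => 0) (fun _ => h) W' (fun σ => sg (σ x)) - mT d n β h) := ⟨_, rfl⟩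
  rw [← hX] at hp ⊢
  rw [(hEXT d n β).2.2, (hEXT d n β).2.2, (hEXT d n β).2.2]
  have h1 := RTO_cmp (KT β fun _ => 0) (fun _ => 0) (fun _ => h) _ hdiff' (W ∪ W')
  have h2 := RTO_cmp (KT β fun _ => 0) (fun _ => h) (fun _ => 0) _ hdiff W
  have h3 := RTO_cmp (KT β fun _ => 0) (fun _ => h) (fun _ => 0) _ hdiff W'
  have hpos : ∀ (g : Site d n → ℝ) (A : Finset (Site d n)), 0 ≤ pr (KT β fun _ => 0) g A := by
    intro g A
    unfold pr
    exact div_nonneg (Finset.sum_nonneg fun σ _ => (Real.exp_pos _).le) (Finset.sum_nonneg fun σ _ => (Real.exp_pos _).le)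
  obtain ⟨c, hc⟩ : ∃ c, c = h * (Fintype.card (Site d n) : ℝ) := ⟨_, rfl⟩
  rw [← hc] at h1 h2 h3
  have hexp : Real.exp (6 * h * (Fintype.card (Site d n) : ℝ) + X) = Real.exp (2 * c) * (Real.exp (2 * c) * Real.exp (2 * c)) * Real.exp X := by
    rw [← Real.exp_add, ← Real.exp_add, ← Real.exp_add, hc]
    congr 1
    ring
  rw [hexp]
  calc pr (KT β fun _ => 0) (fun _ => 0) (W ∪ W') ≤ Real.exp (2 * c) * pr (KT β fun _ => 0) (fun _ => h) (W ∪ W') := h1
    _ ≤ Real.exp (2 * c) * (pr (KT β fun _ => 0) (fun _ => h) W * pr (KT β fun _ => 0) (fun _ => h) W' * Real.exp X) :=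
        mul_le_mul_of_nonneg_left hp (Real.exp_pos _).le
    _ ≤ Real.exp (2 * c) * ((Real.exp (2 * c) * pr (KT β fun _ => 0) (fun _ => 0) W) *
          (Real.exp (2 * c) * pr (KT β fun _ => 0) (fun _ => 0) W') * Real.exp X) := by
        refine mul_le_mul_of_nonneg_left ?_ (Real.exp_pos _).le
        refine mul_le_mul_of_nonneg_right ?_ (Real.exp_pos _).le
        exact mul_le_mul h2 h3 (hpos _ _) (mul_nonneg (Real.exp_pos _).le (hpos _ _))
    _ = _ := by ring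

end CO
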