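import Pool.Agent.helper23.CO.SpecU

/-!
# Project co, row ZON: uniqueness of the Gibbs measure in dimension one
-/

open Finset Filter Topology MeasureTheory

namespace CO

open CU

/-- the site `j` of the chain -/
private def ZON_P (j : ℤ) : ZSite 1 := fun _ => j

private theorem ZON_ext {x : ZSite 1} {j : ℤ} (h : x 0 = j) : x = ZON_P j := by
  funext k
  rw [Subsingleton.elim k 0, h]
  rfl

private theorem ZON_add (x : ZSite 1) (i : Fin 1) : (x + zev i) 0 = x 0 + 1 := by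
  rw [Subsingleton.elim i 0]
  simp [zev]

private theorem ZON_box (n : ℕ) (x : ZSite 1) : x ∈ zBox n (0 : ZSite 1) ↔ -(n : ℤ) ≤ x 0 ∧ x 0 ≤ n := by
  unfold zBox
  rw [Fintype.mem_piFinset]
  constructor
  · intro h
    have h0 := h 0
    rw [Finset.mem_Icc] at h0
    simpa using h0
  · intro h k
    rw [Subsingleton.elim k 0, Finset.mem_Icc]
    simpa using h

private theorem ZON_cl {S : Finset (ZSite 1)} {x y : ZSite 1} (hy : y ∈ S) (h : CS.cl S x = CS.cl S y) : x = y := by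
  unfold CS.cl at h
  rw [dif_pos hy] at h
  by_cases hx : x ∈ S
  · rw [dif_pos hx] at h
    exact congrArg Subtype.val (Option.some.inj h)
  · rw [dif_neg hx] at h
    exact absurd h (by simp)

private theorem ZON_mem {S T : Finset (ZSite 1)} (hT : T ⊆ S) (x : ZSite 1) : CS.cl S x ∈ T.image (CS.cl S) ↔ x ∈ T := by
  constructor
  · intro h
    obtain ⟨y, hy, hxy⟩ := Finset.mem_image.mp h
    rw [ZON_cl (hT hy) hxy.symm]
    exact hy
  · exact fun h => Finset.mem_image_of_mem _ h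

private theorem ZON_tE {S : Finset (ZSite 1)} {x : ZSite 1} (h : x ∈ S) (i : Fin 1) : (x, i) ∈ tE S :=
  Finset.mem_union_left _ (Finset.mem_product.mpr ⟨h, mem_univ _⟩)

/-- one step to the right -/
private theorem ZON_right (hSL : CS.SL_stmt) (hRCO : CS.RCO_stmt) (b : ℝ) (hb : 0 ≤ b) (n : ℕ) (j : ℤ)
    (h1 : -(n : ℤ) ≤ j) (h2 : j < n) :
    CS.cor (CS.zG (zBox n (0 : ZSite 1))) b (CS.ins (CS.zG (zBox n (0 : ZSite 1))) univ
        ((zBox n (0 : ZSite 1)).image (CS.cl (zBox n (0 : ZSite 1)))))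
        (CS.cl (zBox n (0 : ZSite 1)) (ZON_P j)) (CS.cl (zBox n (0 : ZSite 1)) (ZON_P n)) ≤
      Real.tanh b * CS.cor (CS.zG (zBox n (0 : ZSite 1))) b (CS.ins (CS.zG (zBox n (0 : ZSite 1))) univ
        ((zBox n (0 : ZSite 1)).image (CS.cl (zBox n (0 : ZSite 1)))))
        (CS.cl (zBox n (0 : ZSite 1)) (ZON_P (j + 1))) (CS.cl (zBox n (0 : ZSite 1)) (ZON_P n)) := by
  set S := zBox n (0 : ZSite 1) with hS
  set G := CS.zG S with hG
  set E := CS.ins G univ (S.image (CS.cl S)) with hE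
  set T := S.filter (fun x => x 0 ≤ j) with hT
  have hTS : T ⊆ S := Finset.filter_subset _ _
  have hjS : ZON_P j ∈ S := (ZON_box n _).mpr ⟨h1, h2.le⟩
  have hjT : ZON_P j ∈ T := Finset.mem_filter.mpr ⟨hjS, le_refl _⟩
  have hnS : ZON_P n ∈ S := (ZON_box n _).mpr ⟨by show -(n : ℤ) ≤ n; omega, le_refl _⟩
  have hnT : ZON_P n ∉ T := by
    intro h
    have := (Finset.mem_filter.mp h).2
    have h3 : (n : ℤ) ≤ j := this
    omega
  have key := hSL (Option {x // x ∈ S}) {e // e ∈ tE S} G b E (T.image (CS.cl S)) (CS.cl S (ZON_P j)) (CS.cl S (ZON_P n)) hb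
    ((ZON_mem hTS _).mpr hjT) (fun h => hnT ((ZON_mem hTS _).mp h))
  have hpos : ∀ (E' : Finset {e // e ∈ tE S}) (x y : Option {x // x ∈ S}), 0 ≤ CS.cor G b E' x y ∧ CS.cor G b E' x y ≤ 1 :=
    fun E' x y => (hRCO _ _ G b E' hb).2.2.2 x y
  have hth : 0 ≤ Real.tanh b := by
    rw [Real.tanh_eq_sinh_div_cosh]
    exact div_nonneg (Real.sinh_nonneg_iff.mpr hb) (Real.cosh_pos b).le
  refine key.trans (mul_le_mul_of_nonneg_left ?_ hth)
  have hoT : CS.oT G E (T.image (CS.cl S)) = ∅ := by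
    rw [Finset.eq_empty_iff_forall_notMem]
    intro e he
    unfold CS.oT at he
    rw [Finset.mem_filter] at he
    obtain ⟨heE, ht, hs⟩ := he
    have heE' := (Finset.mem_filter.mp heE).2
    have hs1 : e.1.1 ∈ S := (ZON_mem (subset_refl S) _).mp heE'.1
    have ht1 : e.1.1 + zev e.1.2 ∈ T := (ZON_mem hTS _).mp ht
    have hs2 : e.1.1 ∉ T := fun h => hs ((ZON_mem hTS _).mpr h)
    have ht2 := (Finset.mem_filter.mp ht1).2
    rw [ZON_add] at ht2
    exact hs2 (Finset.mem_filter.mpr ⟨hs1, by omega⟩)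
  rw [hoT, Finset.sum_empty, add_zero]
  have hsub : CS.oS G E (T.image (CS.cl S)) ⊆ {(⟨(ZON_P j, 0), ZON_tE hjS 0⟩ : {e // e ∈ tE S})} := by
    intro e he
    unfold CS.oS at he
    rw [Finset.mem_filter] at he
    obtain ⟨heE, hs, ht⟩ := he
    have heE' := (Finset.mem_filter.mp heE).2
    have ht1 : e.1.1 + zev e.1.2 ∈ S := (ZON_mem (subset_refl S) _).mp heE'.2
    have hs1 : e.1.1 ∈ T := (ZON_mem hTS _).mp hs
    have ht2 : e.1.1 + zev e.1.2 ∉ T := fun h => ht ((ZON_mem hTS _).mpr h)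
    have hs2 := (Finset.mem_filter.mp hs1).2
    have hj : e.1.1 0 = j := by
      by_contra hne
      apply ht2
      refine Finset.mem_filter.mpr ⟨ht1, ?_⟩
      rw [ZON_add]
      omega
    rw [Finset.mem_singleton]
    apply Subtype.ext
    apply Prod.ext
    · exact ZON_ext hj
    · exact Subsingleton.elim _ _
  refine (Finset.sum_le_sum_of_subset_of_nonneg hsub fun e _ _ => mul_nonneg (hpos _ _ _).1 (hpos _ _ _).1).trans ?_
  rw [Finset.sum_singleton]
  have ht : G.t (⟨(ZON_P j, 0), ZON_tE hjS 0⟩ : {e // e ∈ tE S}) = CS.cl S (ZON_P (j + 1)) := by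
    show CS.cl S (ZON_P j + zev 0) = _
    rw [ZON_ext (x := ZON_P j + zev 0) (j := j + 1) (by rw [ZON_add]; rfl)]
  rw [ht]
  calc _ ≤ 1 * CS.cor G b E (CS.cl S (ZON_P (j + 1))) (CS.cl S (ZON_P n)) :=
        mul_le_mul_of_nonneg_right (hpos _ _ _).2 (hpos _ _ _).1
    _ = _ := one_mul _

/-- one step to the left -/
private theorem ZON_left (hSL : CS.SL_stmt) (hRCO : CS.RCO_stmt) (b : ℝ) (hb : 0 ≤ b) (n : ℕ) (j : ℤ)
    (h1 : -(n : ℤ) < j) (h2 : j ≤ n) :
    CS.cor (CS.zG (zBox n (0 : ZSite 1))) b (CS.ins (CS.zG (zBox n (0 : ZSite 1))) univ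
        ((zBox n (0 : ZSite 1)).image (CS.cl (zBox n (0 : ZSite 1)))))
        (CS.cl (zBox n (0 : ZSite 1)) (ZON_P j)) (CS.cl (zBox n (0 : ZSite 1)) (ZON_P (-n))) ≤
      Real.tanh b * CS.cor (CS.zG (zBox n (0 : ZSite 1))) b (CS.ins (CS.zG (zBox n (0 : ZSite 1))) univ
        ((zBox n (0 : ZSite 1)).image (CS.cl (zBox n (0 : ZSite 1)))))
        (CS.cl (zBox n (0 : ZSite 1)) (ZON_P (j - 1))) (CS.cl (zBox n (0 : ZSite 1)) (ZON_P (-n))) := by
  set S := zBox n (0 : ZSite 1) with hS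
  set G := CS.zG S with hG
  set E := CS.ins G univ (S.image (CS.cl S)) with hE
  set T := S.filter (fun x => j ≤ x 0) with hT
  have hTS : T ⊆ S := Finset.filter_subset _ _
  have hjS : ZON_P j ∈ S := (ZON_box n _).mpr ⟨h1.le, h2⟩
  have hjS' : ZON_P (j - 1) ∈ S := (ZON_box n _).mpr ⟨by show -(n : ℤ) ≤ j - 1; omega, by show j - 1 ≤ (n : ℤ); omega⟩
  have hjT : ZON_P j ∈ T := Finset.mem_filter.mpr ⟨hjS, le_refl _⟩
  have hnT : ZON_P (-n) ∉ T := by
    intro h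
    have := (Finset.mem_filter.mp h).2
    have h3 : j ≤ -(n : ℤ) := this
    omega
  have key := hSL (Option {x // x ∈ S}) {e // e ∈ tE S} G b E (T.image (CS.cl S)) (CS.cl S (ZON_P j)) (CS.cl S (ZON_P (-n))) hb
    ((ZON_mem hTS _).mpr hjT) (fun h => hnT ((ZON_mem hTS _).mp h))
  have hpos : ∀ (E' : Finset {e // e ∈ tE S}) (x y : Option {x // x ∈ S}), 0 ≤ CS.cor G b E' x y ∧ CS.cor G b E' x y ≤ 1 :=
    fun E' x y => (hRCO _ _ G b E' hb).2.2.2 x y
  have hth : 0 ≤ Real.tanh b := by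
    rw [Real.tanh_eq_sinh_div_cosh]
    exact div_nonneg (Real.sinh_nonneg_iff.mpr hb) (Real.cosh_pos b).le
  refine key.trans (mul_le_mul_of_nonneg_left ?_ hth)
  have hoS : CS.oS G E (T.image (CS.cl S)) = ∅ := by
    rw [Finset.eq_empty_iff_forall_notMem]
    intro e he
    unfold CS.oS at he
    rw [Finset.mem_filter] at he
    obtain ⟨heE, hs, ht⟩ := he
    have heE' := (Finset.mem_filter.mp heE).2
    have ht1 : e.1.1 + zev e.1.2 ∈ S := (ZON_mem (subset_refl S) _).mp heE'.2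
    have hs1 : e.1.1 ∈ T := (ZON_mem hTS _).mp hs
    have ht2 : e.1.1 + zev e.1.2 ∉ T := fun h => ht ((ZON_mem hTS _).mpr h)
    have hs2 := (Finset.mem_filter.mp hs1).2
    apply ht2
    refine Finset.mem_filter.mpr ⟨ht1, ?_⟩
    rw [ZON_add]
    omega
  rw [hoS, Finset.sum_empty, zero_add]
  have hsub : CS.oT G E (T.image (CS.cl S)) ⊆ {(⟨(ZON_P (j - 1), 0), ZON_tE hjS' 0⟩ : {e // e ∈ tE S})} := by
    intro e he
    unfold CS.oT at he
    rw [Finset.mem_filter] at he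
    obtain ⟨heE, ht, hs⟩ := he
    have heE' := (Finset.mem_filter.mp heE).2
    have hs1 : e.1.1 ∈ S := (ZON_mem (subset_refl S) _).mp heE'.1
    have ht1 : e.1.1 + zev e.1.2 ∈ T := (ZON_mem hTS _).mp ht
    have hs2 : e.1.1 ∉ T := fun h => hs ((ZON_mem hTS _).mpr h)
    have ht2 := (Finset.mem_filter.mp ht1).2
    rw [ZON_add] at ht2
    have hj : e.1.1 0 = j - 1 := by
      by_contra hne
      exact hs2 (Finset.mem_filter.mpr ⟨hs1, by omega⟩)
    rw [Finset.mem_singleton]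
    apply Subtype.ext
    apply Prod.ext
    · exact ZON_ext hj
    · exact Subsingleton.elim _ _
  refine (Finset.sum_le_sum_of_subset_of_nonneg hsub fun e _ _ => mul_nonneg (hpos _ _ _).1 (hpos _ _ _).1).trans ?_
  rw [Finset.sum_singleton]
  have hs : G.s (⟨(ZON_P (j - 1), 0), ZON_tE hjS' 0⟩ : {e // e ∈ tE S}) = CS.cl S (ZON_P (j - 1)) := rfl
  rw [hs]
  calc _ ≤ 1 * CS.cor G b E (CS.cl S (ZON_P (j - 1))) (CS.cl S (ZON_P (-n))) :=
        mul_le_mul_of_nonneg_right (hpos _ _ _).2 (hpos _ _ _).1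
    _ = _ := one_mul _

private theorem ZON_cz (hSL : CS.SL_stmt) (hRCO : CS.RCO_stmt) (b : ℝ) (hb : 0 ≤ b) (n : ℕ) :
    CS.cz b (zBox n (0 : ZSite 1)) (ZON_P n) ≤ Real.tanh b ^ n ∧
    CS.cz b (zBox n (0 : ZSite 1)) (ZON_P (-n)) ≤ Real.tanh b ^ n := by
  have hth : 0 ≤ Real.tanh b := by
    rw [Real.tanh_eq_sinh_div_cosh]
    exact div_nonneg (Real.sinh_nonneg_iff.mpr hb) (Real.cosh_pos b).le
  have hz : (0 : ZSite 1) = ZON_P 0 := rfl
  constructor
  · have h : ∀ k : ℕ, k ≤ n → CS.cor (CS.zG (zBox n (0 : ZSite 1))) b (CS.ins (CS.zG (zBox n (0 : ZSite 1))) univ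
        ((zBox n (0 : ZSite 1)).image (CS.cl (zBox n (0 : ZSite 1)))))
        (CS.cl (zBox n (0 : ZSite 1)) (ZON_P (n - k))) (CS.cl (zBox n (0 : ZSite 1)) (ZON_P n)) ≤ Real.tanh b ^ k := by
      intro k
      induction k with
      | zero => exact fun _ => by rw [pow_zero]; exact ((hRCO _ _ _ b _ hb).2.2.2 _ _).2
      | succ k ih =>
        intro hk
        have h1 := ZON_right hSL hRCO b hb n (n - ((k + 1 : ℕ) : ℤ)) (by push_cast; omega) (by push_cast; omega)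
        have h2 : (n : ℤ) - ((k + 1 : ℕ) : ℤ) + 1 = n - (k : ℤ) := by push_cast; ring
        rw [h2] at h1
        refine h1.trans ?_
        rw [pow_succ, mul_comm (Real.tanh b ^ k)]
        exact mul_le_mul_of_nonneg_left (ih (by omega)) hth
    have h0 := h n le_rfl
    rw [sub_self] at h0
    unfold CS.cz
    exact h0
  · have h : ∀ k : ℕ, k ≤ n → CS.cor (CS.zG (zBox n (0 : ZSite 1))) b (CS.ins (CS.zG (zBox n (0 : ZSite 1))) univ
        ((zBox n (0 : ZSite 1)).image (CS.cl (zBox n (0 : ZSite 1)))))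
        (CS.cl (zBox n (0 : ZSite 1)) (ZON_P (-n + k))) (CS.cl (zBox n (0 : ZSite 1)) (ZON_P (-n))) ≤ Real.tanh b ^ k := by
      intro k
      induction k with
      | zero => exact fun _ => by rw [pow_zero]; exact ((hRCO _ _ _ b _ hb).2.2.2 _ _).2
      | succ k ih =>
        intro hk
        have h1 := ZON_left hSL hRCO b hb n (-(n : ℤ) + ((k + 1 : ℕ) : ℤ)) (by push_cast; omega) (by push_cast; omega)
        have h2 : -(n : ℤ) + ((k + 1 : ℕ) : ℤ) - 1 = -(n : ℤ) + (k : ℤ) := by push_cast; ring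
        rw [h2] at h1
        refine h1.trans ?_
        rw [pow_succ, mul_comm (Real.tanh b ^ k)]
        exact mul_le_mul_of_nonneg_left (ih (by omega)) hth
    have h0 := h n le_rfl
    rw [neg_add_cancel] at h0
    unfold CS.cz
    exact h0

private theorem ZON_psz (hSL : CS.SL_stmt) (hRCO : CS.RCO_stmt) (b : ℝ) (hb : 0 ≤ b) (n : ℕ) :
    CS.psz b (zBox n (0 : ZSite 1)) ≤ 2 * Real.tanh b ^ n := by
  obtain ⟨h1, h2⟩ := ZON_cz hSL hRCO b hb n
  have hpos : ∀ x : ZSite 1, 0 ≤ CS.cz b (zBox n (0 : ZSite 1)) x := fun x => ((hRCO _ _ _ b _ hb).2.2.2 _ _).1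
  unfold CS.psz
  have e1 : ∑ e ∈ (tE (zBox n (0 : ZSite 1))).filter (fun e => e.1 ∈ zBox n (0 : ZSite 1) ∧ e.1 + zev e.2 ∉ zBox n (0 : ZSite 1)),
      CS.cz b (zBox n (0 : ZSite 1)) e.1 ≤ Real.tanh b ^ n := by
    have hsub : (tE (zBox n (0 : ZSite 1))).filter (fun e => e.1 ∈ zBox n (0 : ZSite 1) ∧ e.1 + zev e.2 ∉ zBox n (0 : ZSite 1)) ⊆
        {(ZON_P n, 0)} := by
      intro e he
      rw [Finset.mem_filter, ZON_box, ZON_box, ZON_add] at he
      obtain ⟨_, ⟨h3, h4⟩, h5⟩ := he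
      rw [Finset.mem_singleton]
      apply Prod.ext
      · exact ZON_ext (j := (n : ℤ)) (by omega)
      · exact Subsingleton.elim _ _
    refine (Finset.sum_le_sum_of_subset_of_nonneg hsub fun e _ _ => hpos _).trans ?_
    rw [Finset.sum_singleton]
    exact h1
  have e2 : ∑ e ∈ (tE (zBox n (0 : ZSite 1))).filter (fun e => e.1 + zev e.2 ∈ zBox n (0 : ZSite 1) ∧ e.1 ∉ zBox n (0 : ZSite 1)),
      CS.cz b (zBox n (0 : ZSite 1)) (e.1 + zev e.2) ≤ Real.tanh b ^ n := by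
    have hsub : (tE (zBox n (0 : ZSite 1))).filter (fun e => e.1 + zev e.2 ∈ zBox n (0 : ZSite 1) ∧ e.1 ∉ zBox n (0 : ZSite 1)) ⊆
        {(ZON_P (-n - 1), 0)} := by
      intro e he
      rw [Finset.mem_filter, ZON_box, ZON_box, ZON_add] at he
      obtain ⟨_, ⟨h3, h4⟩, h5⟩ := he
      rw [Finset.mem_singleton]
      apply Prod.ext
      · exact ZON_ext (j := -(n : ℤ) - 1) (by omega)
      · exact Subsingleton.elim _ _
    refine (Finset.sum_le_sum_of_subset_of_nonneg hsub fun e _ _ => hpos _).trans ?_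
    rw [Finset.sum_singleton]
    show CS.cz b (zBox n (0 : ZSite 1)) (ZON_P (-n - 1) + zev 0) ≤ _
    rw [ZON_ext (x := ZON_P (-n - 1) + zev 0) (j := -(n : ℤ)) (by rw [ZON_add]; show -(n : ℤ) - 1 + 1 = -n; ring)]
    exact h2
  linarith

theorem ZON (hSL : CS.SL_stmt) (hRCO : CS.RCO_stmt) (hDEC : CS.DEC_stmt) (hEXPO : CS.EXPO_stmt) (hTR : CS.TR_stmt)
    (hVH : CU.VH_stmt) (hVF : CU.VF_stmt) : ZON_stmt := by
  have _ := hTR
  intro β hβ μ ν hμ hν
  by_contra hne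
  obtain ⟨m, hm, hM⟩ := hVH 1 β hβ μ ν hμ hν hne
  have hML : ∀ L : ℕ, m ≤ CS.ML 1 β L := by
    intro L
    have h := hM L (2 * L) le_rfl
    rw [hVF 1 β L (2 * L) le_rfl] at h
    exact h
  have hth : 0 ≤ Real.tanh β := by
    rw [Real.tanh_eq_sinh_div_cosh]
    exact div_nonneg (Real.sinh_nonneg_iff.mpr hβ) (Real.cosh_pos β).le
  have hth1 : Real.tanh β < 1 := by
    rw [Real.tanh_eq_sinh_div_cosh, div_lt_one (Real.cosh_pos β)]
    exact Real.sinh_lt_cosh β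
  have hlim : Tendsto (fun n : ℕ => Real.tanh β ^ n) atTop (𝓝 0) := tendsto_pow_atTop_nhds_zero_of_lt_one hth hth1
  obtain ⟨n, hn⟩ := (hlim.eventually (gt_mem_nhds (show (0 : ℝ) < 1 / 4 by norm_num))).exists
  have hpsz := ZON_psz hSL hRCO β hβ n
  have hpow : 0 ≤ Real.tanh β ^ n := pow_nonneg hth n
  have hsmall : Real.tanh β * CS.psz β (zBox n (0 : ZSite 1)) ≤ 1 / 2 := by
    calc Real.tanh β * CS.psz β (zBox n (0 : ZSite 1)) ≤ Real.tanh β * (2 * Real.tanh β ^ n) :=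
          mul_le_mul_of_nonneg_left hpsz hth
      _ ≤ 1 * (2 * Real.tanh β ^ n) := mul_le_mul_of_nonneg_right hth1.le (by positivity)
      _ ≤ 1 / 2 := by linarith
  have h0 : (0 : ZSite 1) ∈ zBox n (0 : ZSite 1) := (ZON_box n 0).mpr ⟨by show -(n : ℤ) ≤ 0; omega, by show (0 : ℤ) ≤ n; omega⟩
  obtain ⟨C, c, hC, hc, hexp⟩ := hEXPO 1 β n hβ (hDEC 1 β n (zBox n (0 : ZSite 1)) hβ h0 (subset_refl _) hsmall)
  have hlim2 : Tendsto (fun L : ℕ => C * Real.exp (-c * L)) atTop (𝓝 (C * 0)) := by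
    refine Tendsto.const_mul C ?_
    refine Real.tendsto_exp_atBot.comp ?_
    exact Tendsto.const_mul_atTop_of_neg (by linarith) tendsto_natCast_atTop_atTop
  rw [mul_zero] at hlim2
  have h3 : m ≤ 0 := ge_of_tendsto' hlim2 fun L => (hML L).trans (hexp L)
  linarith

end CO
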