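import Pool.Agent.helper23.CO.SpecB

/-!
# Project co, row UPA: upper bounds by a box with plus boundary condition
-/

open Finset Filter Topology

namespace CO

open CU

/-- indicator of the complement of `B` -/
private noncomputable def UPA_i {V : Type} [DecidableEq V] (B : Finset V) (x : V) : ℝ := if x ∈ B then 0 else 1

private theorem UPA_pair {V : Type} [DecidableEq V] (B : Finset V) (σ : V → Bool) (hσ : ∀ x, x ∉ B → σ x = true)
    (x y : V) : |sg (σ x) * sg (σ y) - UPA_i B x * UPA_i B y| ≤ (if x ∈ B then (1 : ℝ) else 0) + (if y ∈ B then 1 else 0) := by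
  have h1 : |sg (σ x) * sg (σ y)| = 1 := by
    cases σ x <;> cases σ y <;> simp [sg]
  unfold UPA_i
  by_cases hx : x ∈ B
  · rw [if_pos hx, if_pos hx, zero_mul, sub_zero, h1]
    split_ifs <;> norm_num
  · by_cases hy : y ∈ B
    · rw [if_pos hy, if_pos hy, mul_zero, sub_zero, h1, if_neg hx]
      norm_num
    · rw [if_neg hx, if_neg hy, if_neg hx, if_neg hy, hσ x hx, hσ y hy]
      norm_num [sg]

private theorem UPA_site {V : Type} [DecidableEq V] (B : Finset V) (σ : V → Bool) (hσ : ∀ x, x ∉ B → σ x = true)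
    (x : V) : |sg (σ x) - UPA_i B x| ≤ (if x ∈ B then (1 : ℝ) else 0) := by
  have h1 : |sg (σ x)| = 1 := by
    cases σ x <;> simp [sg]
  unfold UPA_i
  by_cases hx : x ∈ B
  · rw [if_pos hx, if_pos hx, sub_zero, h1]
  · rw [if_neg hx, if_neg hx, hσ x hx]
    norm_num [sg]

private theorem UPA_core (hHHT : HHT_stmt) (hPTB : PTB_stmt) (d n : ℕ) [NeZero n] (β h T : ℝ) (J : Site d n → ℝ)
    (hh : 0 ≤ h) (hJ : ∀ z, 0 ≤ J z) (hJT : (∑ z, J z) ≤ T) (hhT : h ≤ T) (B : Finset (Site d n)) (f : Conf d n → ℝ)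
    (hf : ∀ σ, |f σ| ≤ 1) :
    exA (KT β J) (fun _ => h) (univ \ B) f ≤
      exA (KT β fun _ => 0) (fun _ => 0) (univ \ B) f + 2 * (Real.exp (2 * (3 * T * B.card)) - 1) := by
  have hmem : ∀ σ : Conf d n, σ ∈ pl (univ \ B) ↔ ∀ x, x ∉ B → σ x = true := by
    intro σ
    unfold pl
    rw [Finset.mem_filter]
    constructor
    · intro h x hx
      exact h.2 x (Finset.mem_sdiff.mpr ⟨mem_univ _, hx⟩)
    · intro h
      exact ⟨mem_univ _, fun x hx => h x (Finset.mem_sdiff.mp hx).2⟩
  have hne : (pl (univ \ B) : Finset (Conf d n)).Nonempty := ⟨fun _ => true, (hmem _).mpr fun _ _ => rfl⟩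
  have hP := hPTB (Conf d n) (pl (univ \ B)) (fun σ => Real.exp (β * HN σ))
    (fun σ => (∑ x, ∑ y, J (y - x) * (sg (σ x) * sg (σ y))) + h * Mg σ) f
    ((∑ x, ∑ y, J (y - x) * (UPA_i B x * UPA_i B y)) + h * ∑ x, UPA_i B x) (3 * T * B.card) hne
    (fun σ => Real.exp_pos _) (fun σ _ => hf σ) (by
      intro σ hσ
      have hσ' := (hmem σ).mp hσ
      have e1 : (∑ x : Site d n, ∑ y : Site d n, J (y - x) * (sg (σ x) * sg (σ y))) + h * Mg σ -
          ((∑ x : Site d n, ∑ y : Site d n, J (y - x) * (UPA_i B x * UPA_i B y)) + h * ∑ x, UPA_i B x) =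
          (∑ x : Site d n, ∑ y : Site d n, J (y - x) * (sg (σ x) * sg (σ y) - UPA_i B x * UPA_i B y)) +
            h * ∑ x, (sg (σ x) - UPA_i B x) := by
        have h1 : (∑ x : Site d n, ∑ y : Site d n, J (y - x) * (sg (σ x) * sg (σ y) - UPA_i B x * UPA_i B y)) =
            (∑ x : Site d n, ∑ y : Site d n, J (y - x) * (sg (σ x) * sg (σ y))) -
            ∑ x : Site d n, ∑ y : Site d n, J (y - x) * (UPA_i B x * UPA_i B y) := by
          rw [← Finset.sum_sub_distrib]
          refine Finset.sum_congr rfl fun x _ => ?_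
          rw [← Finset.sum_sub_distrib]
          exact Finset.sum_congr rfl fun y _ => by ring
        rw [h1, Finset.sum_sub_distrib]
        unfold Mg
        ring
      have e2 : |∑ x : Site d n, ∑ y : Site d n, J (y - x) * (sg (σ x) * sg (σ y) - UPA_i B x * UPA_i B y)| ≤
          2 * T * B.card := by
        have h1 : |∑ x : Site d n, ∑ y : Site d n, J (y - x) * (sg (σ x) * sg (σ y) - UPA_i B x * UPA_i B y)| ≤
            ∑ x : Site d n, ∑ y : Site d n, J (y - x) * ((if x ∈ B then (1 : ℝ) else 0) + (if y ∈ B then 1 else 0)) := by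
          refine (Finset.abs_sum_le_sum_abs _ _).trans (Finset.sum_le_sum fun x _ => ?_)
          refine (Finset.abs_sum_le_sum_abs _ _).trans (Finset.sum_le_sum fun y _ => ?_)
          rw [abs_mul, abs_of_nonneg (hJ _)]
          exact mul_le_mul_of_nonneg_left (UPA_pair B σ hσ' x y) (hJ _)
        have h2 : ∑ x : Site d n, ∑ y : Site d n, J (y - x) * (if x ∈ B then (1 : ℝ) else 0) = B.card * ∑ z, J z := by
          have : ∀ x : Site d n, ∑ y : Site d n, J (y - x) * (if x ∈ B then (1 : ℝ) else 0) =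
              (if x ∈ B then (1 : ℝ) else 0) * ∑ z, J z := by
            intro x
            rw [← Finset.sum_mul, mul_comm]
            congr 1
            exact Equiv.sum_comp (Equiv.subRight x) J
          rw [Finset.sum_congr rfl fun x _ => this x, ← Finset.sum_mul]
          congr 1
          rw [Finset.sum_ite_mem, Finset.univ_inter, Finset.sum_const, nsmul_eq_mul, mul_one]
        have h3 : ∑ x : Site d n, ∑ y : Site d n, J (y - x) * (if y ∈ B then (1 : ℝ) else 0) = B.card * ∑ z, J z := by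
          rw [Finset.sum_comm]
          have : ∀ y : Site d n, ∑ x : Site d n, J (y - x) * (if y ∈ B then (1 : ℝ) else 0) =
              (if y ∈ B then (1 : ℝ) else 0) * ∑ z, J z := by
            intro y
            rw [← Finset.sum_mul, mul_comm]
            congr 1
            exact Equiv.sum_comp (Equiv.subLeft y) J
          rw [Finset.sum_congr rfl fun x _ => this x, ← Finset.sum_mul]
          congr 1
          rw [Finset.sum_ite_mem, Finset.univ_inter, Finset.sum_const, nsmul_eq_mul, mul_one]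
        refine h1.trans ?_
        have h4 : ∑ x : Site d n, ∑ y : Site d n, J (y - x) * ((if x ∈ B then (1 : ℝ) else 0) + (if y ∈ B then 1 else 0)) =
            (∑ x : Site d n, ∑ y : Site d n, J (y - x) * (if x ∈ B then (1 : ℝ) else 0)) +
            ∑ x : Site d n, ∑ y : Site d n, J (y - x) * (if y ∈ B then (1 : ℝ) else 0) := by
          rw [← Finset.sum_add_distrib]
          refine Finset.sum_congr rfl fun x _ => ?_
          rw [← Finset.sum_add_distrib]
          exact Finset.sum_congr rfl fun y _ => by ring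
        rw [h4, h2, h3]
        have hB : (0 : ℝ) ≤ B.card := Nat.cast_nonneg _
        nlinarith
      have e3 : |h * ∑ x, (sg (σ x) - UPA_i B x)| ≤ T * B.card := by
        rw [abs_mul, abs_of_nonneg hh]
        have h1 : |∑ x, (sg (σ x) - UPA_i B x)| ≤ B.card := by
          refine (Finset.abs_sum_le_sum_abs _ _).trans ?_
          refine (Finset.sum_le_sum fun x _ => UPA_site B σ hσ' x).trans ?_
          rw [Finset.sum_ite_mem, Finset.univ_inter, Finset.sum_const, nsmul_eq_mul, mul_one]
        exact mul_le_mul hhT h1 (abs_nonneg _) (hh.trans hhT)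
      rw [e1]
      refine (abs_add_le _ _).trans ?_
      linarith)
  have hE1 : exA (KT β J) (fun _ => h) (univ \ B) f =
      (∑ σ ∈ pl (univ \ B), Real.exp (β * HN σ) * Real.exp ((∑ x, ∑ y, J (y - x) * (sg (σ x) * sg (σ y))) + h * Mg σ) * f σ) /
      (∑ σ ∈ pl (univ \ B), Real.exp (β * HN σ) * Real.exp ((∑ x, ∑ y, J (y - x) * (sg (σ x) * sg (σ y))) + h * Mg σ)) := by
    have hexp : ∀ σ : Conf d n, Real.exp (CWM.HH (KT β J) (fun _ => h) σ) =
        Real.exp (β * HN σ) * Real.exp ((∑ x, ∑ y, J (y - x) * (sg (σ x) * sg (σ y))) + h * Mg σ) := by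
      intro σ
      rw [(hHHT d n β h J σ).1, ← Real.exp_add]
      congr 1
      ring
    unfold exA
    congr 1
    · exact Finset.sum_congr rfl fun σ _ => by rw [hexp]
    · exact Finset.sum_congr rfl fun σ _ => by rw [hexp]
  have hE2 : exA (KT β fun _ => 0) (fun _ => 0) (univ \ B) f =
      (∑ σ ∈ pl (univ \ B), Real.exp (β * HN σ) * f σ) / (∑ σ ∈ pl (univ \ B), Real.exp (β * HN σ)) := by
    have hexp : ∀ σ : Conf d n, Real.exp (CWM.HH (KT β fun _ => 0) (fun _ => 0) σ) = Real.exp (β * HN σ) := by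
      intro σ
      rw [(hHHT d n β 0 (fun _ => 0) σ).1]
      congr 1
      simp
    unfold exA
    congr 1
    · exact Finset.sum_congr rfl fun σ _ => by rw [hexp]
    · exact Finset.sum_congr rfl fun σ _ => by rw [hexp]
  rw [hE1, hE2]
  exact hP

theorem UPA (hGKW : GKW_stmt) (hEXT : EXT_stmt) (hHHT : HHT_stmt) (hPTB : PTB_stmt) (hBXP : BXP_stmt) (hBC : CU.BC_stmt) :
    UPA_stmt := by
  intro d n L _ hn β h T J hβ hh hJ hJT hhT
  have hT : 0 ≤ T := hh.trans hhT
  have hK : ∀ x y : Site d n, 0 ≤ KT β J x y := by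
    intro x y
    unfold KT
    refine add_nonneg (mul_nonneg hβ (Finset.sum_nonneg fun i _ => ?_)) (hJ _)
    split_ifs <;> norm_num
  have hsg : ∀ b : Bool, |sg b| ≤ 1 := by
    intro b
    cases b <;> simp [sg]
  constructor
  · intro A x hA
    have hsub : A ⊆ univ \ Box L x := by
      intro y hy
      refine Finset.mem_sdiff.mpr ⟨mem_univ _, fun hB => hA y hy ?_⟩
      exact (Finset.mem_filter.mp hB).2
    have h1 := (hGKW (Site d n) (KT β J) (KT β J) (fun _ => h) (fun _ => h) hK (fun _ => hh) (fun _ _ => le_rfl) (fun _ => le_rfl)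
      A (univ \ Box L x) hsub x x).1
    have h2 := UPA_core hHHT hPTB d n β h T J hh hJ hJT hhT (Box L x) (fun σ => sg (σ x)) (fun σ => hsg _)
    rw [← (hEXT d n β).2.1, (hBXP d n L hn β x x).1] at h2
    have h3 : Real.exp (2 * (3 * T * (Box L x).card)) ≤ Real.exp (6 * T * (2 * L + 1) ^ d) := by
      apply Real.exp_le_exp.mpr
      have h4 : ((Box L x).card : ℝ) ≤ (2 * L + 1) ^ d := by exact_mod_cast hBC d n L x
      nlinarith
    linarith
  · intro x y hxy
    have h1 := (hGKW (Site d n) (KT β J) (KT β J) (fun _ => h) (fun _ => h) hK (fun _ => hh) (fun _ _ => le_rfl) (fun _ => le_rfl)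
      ∅ (univ \ (Box L x ∪ Box L y)) (Finset.empty_subset _) x y).2.1
    have h1' := (hGKW (Site d n) (KT β J) (KT β J) (fun _ => h) (fun _ => h) hK (fun _ => hh) (fun _ _ => le_rfl) (fun _ => le_rfl)
      ∅ (univ \ (Box L x ∪ Box L y)) (Finset.empty_subset _) x y).2.2.2.2 (fun σ => sg (σ x) * sg (σ y))
    rw [h1'] at h1
    have h2 := UPA_core hHHT hPTB d n β h T J hh hJ hJT hhT (Box L x ∪ Box L y) (fun σ => sg (σ x) * sg (σ y)) (fun σ => by
      show |sg (σ x) * sg (σ y)| ≤ 1
      rw [abs_mul]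
      exact mul_le_one₀ (hsg _) (abs_nonneg _) (hsg _))
    rw [← (hEXT d n β).2.1, (hBXP d n L hn β x y).2 hxy] at h2
    have h3 : Real.exp (2 * (3 * T * (Box L x ∪ Box L y).card)) ≤ Real.exp (12 * T * (2 * L + 1) ^ d) := by
      apply Real.exp_le_exp.mpr
      have h4 : ((Box L x).card : ℝ) ≤ (2 * L + 1) ^ d := by exact_mod_cast hBC d n L x
      have h5 : ((Box L y).card : ℝ) ≤ (2 * L + 1) ^ d := by exact_mod_cast hBC d n L y
      have h6 : ((Box L x ∪ Box L y).card : ℝ) ≤ (Box L x).card + (Box L y).card := by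
        exact_mod_cast Finset.card_union_le _ _
      nlinarith
    unfold c2
    linarith

end CO
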